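import Pool.Agent.H66.Gol.Blk
import Pool.Agent.H95.Sgr.Basic

/-! # Mertens in one block for the primes `1` modulo `r` (helper66, module S3) -/

namespace Pool.Agent.H66.Sgr

open Finset Pool.Agent.H95.Gol Pool.Agent.H95.Sgr Pool.Agent.H66.Gol

/-- S3: Mertens in one block for the primes `1` mod `r` -/
theorem blkR (r : ℕ) (hr : r.Prime) (_hr2 : r ≠ 2) : ∃ C : ℝ, 0 < C ∧ ∀ k : ℕ,
    |∑ l ∈ PB k, cr r l / l - Real.log 2| ≤ C / 2 ^ k := by
  have : NeZero r := ⟨hr.ne_zero⟩
  obtain ⟨C', hC0', hC'⟩ := Pool.Agent.H41.SF.mertens_AP (q := r) (a := 1) isUnit_one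
  have hr1 : (0 : ℝ) < (r : ℝ) - 1 := by
    have : (2 : ℝ) ≤ r := by exact_mod_cast hr.two_le
    linarith
  set C : ℝ := ((r : ℝ) - 1) * C' with hCdef
  have hC0 : 0 ≤ C := mul_nonneg hr1.le hC0'
  refine ⟨(2 * C + 1) / Real.log 2, by have := Real.log_pos one_lt_two; positivity, fun k => ?_⟩
  set B := bb k with hB
  set B2 := bb (k + 1) with hB2
  have hB1 : 2 ≤ B := two_le_bb k
  have hBB : B ≤ B2 := bb_mono (Nat.le_succ k)
  set a : ℕ → ℝ := fun n => if n.Prime then cr r n * (Real.log n / n) else 0 with ha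
  have hA : ∀ N : ℕ, 1 ≤ N → |∑ n ∈ Ioc 0 N, a n - Real.log N| ≤ C := by
    intro N hN
    have h := hC' N hN
    rw [Nat.totient_prime hr, Nat.cast_sub hr.one_le, Nat.cast_one, Finset.sum_filter] at h
    have e : ∀ n ∈ Ioc 0 N, a n = ((r : ℝ) - 1) *
        (if n.Prime ∧ ((n : ℕ) : ZMod r) = 1 then Real.log n / n else 0) := by
      intro n _
      have hiff : ((n : ℕ) : ZMod r) = 1 ↔ n % r = 1 := by
        have h1 : ((n : ℕ) : ZMod r) = ((1 : ℕ) : ZMod r) ↔ n % r = 1 % r :=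
          ZMod.natCast_eq_natCast_iff' n 1 r
        rw [Nat.cast_one, Nat.mod_eq_of_lt hr.one_lt] at h1
        exact h1
      simp only [ha, cr, hiff]
      by_cases h1 : n.Prime <;> by_cases h2 : n % r = 1 <;> simp [h1, h2]
    rw [Finset.sum_congr rfl e, ← mul_sum]
    have e2 : ((r : ℝ) - 1) * ∑ n ∈ Ioc 0 N, (if n.Prime ∧ ((n : ℕ) : ZMod r) = 1 then
        Real.log n / n else 0) - Real.log N = ((r : ℝ) - 1) *
        (∑ n ∈ Ioc 0 N, (if n.Prime ∧ ((n : ℕ) : ZMod r) = 1 then Real.log n / n else 0) -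
          Real.log N / ((r : ℝ) - 1)) := by
      have := hr1.ne'
      field_simp
    rw [e2, abs_mul, abs_of_pos hr1]
    exact mul_le_mul_of_nonneg_left h hr1.le
  set δ : ℕ → ℝ := fun n => Real.log n - Real.log (n - 1 : ℕ) with hδ
  have hδsum : ∀ N, B ≤ N → ∑ n ∈ Ioc B N, δ n = Real.log N - Real.log B := by
    intro N hN
    obtain ⟨j, rfl⟩ : ∃ j, N = B + j := ⟨N - B, by omega⟩
    induction j with
    | zero => simp
    | succ j ih =>
      rw [← add_assoc, Finset.sum_Ioc_succ_top (by omega), ih (by omega)]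
      simp only [hδ]
      have e : (B + j + 1 - 1 : ℕ) = B + j := by omega
      rw [e]; ring
  have hcsum : ∀ N, B ≤ N → |∑ n ∈ Ioc B N, (a n - δ n)| ≤ 2 * C := by
    intro N hN
    rw [Finset.sum_sub_distrib, hδsum N hN]
    have e : ∑ n ∈ Ioc 0 N, a n = ∑ n ∈ Ioc 0 B, a n + ∑ n ∈ Ioc B N, a n := by
      rw [← Finset.sum_union]
      · congr 1
        ext n; simp only [mem_union, mem_Ioc]; omega
      · rw [Finset.disjoint_left]
        intro n hn hn'
        simp only [mem_Ioc] at hn hn'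
        omega
    have h1 := hA N (by omega)
    have h2 := hA B (by omega)
    have e3 : ∑ n ∈ Ioc B N, a n - (Real.log N - Real.log B) =
        (∑ n ∈ Ioc 0 N, a n - Real.log N) - (∑ n ∈ Ioc 0 B, a n - Real.log B) := by
      rw [e]; ring
    rw [e3]
    refine (abs_sub _ _).trans ?_
    linarith
  have hlogpos : ∀ n : ℕ, B < n → 0 < Real.log n := by
    intro n hn
    apply Real.log_pos
    exact_mod_cast (by omega : 1 < n)
  have h1 := abel_le (c := fun n => a n - δ n) (g := fun n => (Real.log n)⁻¹) (B := B)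
    (M := 2 * C) (by positivity) hcsum (fun n hn => (inv_pos.2 (hlogpos n hn)).le)
    (fun n hn => inv_anti₀ (hlogpos n hn) (Real.log_le_log (by
      exact_mod_cast (by omega : 0 < n)) (by push_cast; linarith))) B2 hBB
  have h2 := loglog_sum B hB1 B2 hBB
  have hB0 : (0 : ℝ) < Real.log B := Real.log_pos (by exact_mod_cast (by omega : 1 < B))
  have hB20 : (0 : ℝ) < Real.log B2 := Real.log_pos (by exact_mod_cast (by omega : 1 < B2))
  have e1 : ∑ l ∈ PB k, cr r l / l = ∑ n ∈ Ioc B B2, a n * (Real.log n)⁻¹ := by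
    unfold PB
    rw [Finset.sum_filter]
    apply Finset.sum_congr rfl
    intro n hn
    have hn' := hlogpos n (mem_Ioc.1 hn).1
    simp only [ha]
    split_ifs
    · field_simp
    · simp
  have e2 : Real.log (Real.log B2) - Real.log (Real.log B) = Real.log 2 := by
    rw [← Real.log_div hB20.ne' hB0.ne', hB, hB2, log_bb, log_bb]
    congr 1
    have := (Real.log_pos one_lt_two).ne'
    rw [pow_succ]
    field_simp
  have e3 : ∑ n ∈ Ioc B B2, a n * (Real.log n)⁻¹ =
      ∑ n ∈ Ioc B B2, (a n - δ n) * (Real.log n)⁻¹ + ∑ n ∈ Ioc B B2, δ n * (Real.log n)⁻¹ := by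
    rw [← Finset.sum_add_distrib]
    apply Finset.sum_congr rfl
    intro n _
    ring
  rw [e2] at h2
  rw [e1, e3, add_sub_assoc]
  have h3 : (Real.log ((B + 1 : ℕ) : ℝ))⁻¹ ≤ (Real.log B)⁻¹ :=
    inv_anti₀ hB0 (Real.log_le_log (by exact_mod_cast (by omega : 0 < B)) (by push_cast; linarith))
  have h4 : Real.log B = 2 ^ k * Real.log 2 := log_bb k
  calc _ ≤ _ := abs_add_le _ _
    _ ≤ 2 * C * (Real.log ((B + 1 : ℕ) : ℝ))⁻¹ + ((Real.log B)⁻¹ - (Real.log B2)⁻¹) :=
        add_le_add h1 h2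
    _ ≤ 2 * C * (Real.log B)⁻¹ + (Real.log B)⁻¹ := by
        have : 0 ≤ (Real.log B2)⁻¹ := by positivity
        gcongr
        linarith
    _ = (2 * C + 1) / Real.log 2 / 2 ^ k := by
        rw [h4]
        have := (Real.log_pos one_lt_two).ne'
        field_simp

end Pool.Agent.H66.Sgr
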