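import Pool.Agent.H66.Gol.High
import Pool.Agent.H95.Sgr.Basic

/-! # Large sieve with bounded coefficients (helper66, module W2) -/

namespace Pool.Agent.H66.Sgr

open Finset Pool.Agent.H95.Gol Pool.Agent.H95.Sgr Pool.Agent.H66.Gol NumberTheorySymbols

/-- one sign -/
theorem highC_aux {c : ℕ → ℝ} {Bc : ℝ} (hBc : 0 < Bc) (hc : ∀ l, |c l| ≤ Bc)
    {C0 : ℝ} (hC0 : 0 < C0) (k : ℕ) (hb : ∑ l ∈ PB k, (1:ℝ) / l ≤ C0)
    (s : ℤ) (m : ℕ) (ε : ℝ) (hs : s = 1 ∨ s = -1) (hε : 0 < ε)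
    (hsize : 64 * (Bc ^ 2 * C0) * 2^(2*m) ≤ ε^2 * bb k) (S : Finset ℕ)
    (hS : ∀ p ∈ S, p.Prime ∧ p ≤ 2 ^ (m + 1)) (σ : ℝ)
    (hσ : ∀ p ∈ S, ε ≤ σ * DkC c (s * p) k) (hσ1 : σ ^ 2 = 1) :
    (S.card : ℝ) ≤ 2 * (Bc ^ 2 * C0) * 2 ^ k / ε ^ 2 := by
  set B := bb k with hB
  set B2 := bb (k + 1) with hB2
  have hBB : B ≤ B2 := bb_mono (Nat.le_succ k)
  have hB0 : (0 : ℝ) < B := by exact_mod_cast bb_pos k
  set X : ℕ → ℝ := fun n => ∑ p ∈ S, F (s * p) n with hX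
  -- lower bound
  have h1 : ε * S.card ≤ σ * ∑ l ∈ PB k, c l * X l / l := by
    calc ε * S.card = ∑ p ∈ S, ε := by rw [sum_const, nsmul_eq_mul]; ring
      _ ≤ ∑ p ∈ S, σ * DkC c (s * p) k := sum_le_sum hσ
      _ = σ * ∑ l ∈ PB k, c l * X l / l := by
        rw [← mul_sum]
        congr 1
        unfold DkC
        rw [sum_comm]
        apply sum_congr rfl
        intro l _
        rw [hX, mul_sum, sum_div]
  -- Cauchy-Schwarz
  have h2 : (∑ l ∈ PB k, c l * X l / l) ^ 2 ≤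
      (∑ l ∈ PB k, c l ^ 2 / l) * ∑ l ∈ PB k, X l ^ 2 / l := by
    have h := Finset.sum_mul_sq_le_sq_mul_sq (PB k) (fun l : ℕ => √((1 : ℝ) / l) * c l)
      (fun l : ℕ => √((1 : ℝ) / l) * X l)
    have e1 : ∀ l ∈ PB k, √((1 : ℝ) / l) * c l * (√((1 : ℝ) / l) * X l) = c l * X l / l := by
      intro l _
      have : √((1 : ℝ) / l) * c l * (√((1 : ℝ) / l) * X l) =
        (√((1 : ℝ) / l) * √((1 : ℝ) / l)) * (c l * X l) := by ring
      rw [this, Real.mul_self_sqrt (by positivity)]; ring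
    have e2 : ∀ l ∈ PB k, (√((1 : ℝ) / l) * c l) ^ 2 = c l ^ 2 / l := by
      intro l _
      rw [mul_pow, Real.sq_sqrt (by positivity)]; ring
    have e3 : ∀ l ∈ PB k, (√((1 : ℝ) / l) * X l) ^ 2 = X l ^ 2 / l := by
      intro l _
      rw [mul_pow, Real.sq_sqrt (by positivity)]; ring
    rwa [sum_congr rfl e1, sum_congr rfl e2, sum_congr rfl e3] at h
  have hcb : ∑ l ∈ PB k, c l ^ 2 / l ≤ Bc ^ 2 * C0 := by
    calc ∑ l ∈ PB k, c l ^ 2 / (l : ℝ) ≤ ∑ l ∈ PB k, Bc ^ 2 * ((1 : ℝ) / l) := by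
          apply sum_le_sum
          intro l _
          have h3 : c l ^ 2 ≤ Bc ^ 2 := by
            rw [← sq_abs (c l)]
            exact pow_le_pow_left₀ (abs_nonneg _) (hc l) 2
          rw [mul_one_div]
          gcongr
      _ = Bc ^ 2 * ∑ l ∈ PB k, (1 : ℝ) / l := by rw [mul_sum]
      _ ≤ _ := by gcongr
  -- extension to all n
  have h3 : ∑ l ∈ PB k, X l ^ 2 / l ≤ ∑ n ∈ Ioc B B2, X n ^ 2 / n :=
    sum_le_sum_of_subset_of_nonneg (filter_subset _ _) (fun _ _ _ => by positivity)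
  have h4 : ∑ n ∈ Ioc B B2, X n ^ 2 / n =
      ∑ p ∈ S, ∑ p' ∈ S, ∑ n ∈ Ioc B B2, F ((p : ℤ) * p') n / n := by
    have : ∀ n ∈ Ioc B B2, X n ^ 2 / n = ∑ p ∈ S, ∑ p' ∈ S, F ((p : ℤ) * p') n / n := by
      intro n _
      rw [hX, sq, sum_mul_sum, sum_div]
      apply sum_congr rfl; intro p _
      rw [sum_div]
      apply sum_congr rfl; intro p' _
      rw [F_mul_F s hs]
    rw [sum_congr rfl this, sum_comm]
    apply sum_congr rfl; intro p _
    rw [sum_comm]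
  have h5 : ∀ p ∈ S, ∀ p' ∈ S, ∑ n ∈ Ioc B B2, F ((p : ℤ) * p') n / n ≤
      (if p' = p then (2 : ℝ) ^ k else 0) + 32 * 2 ^ (2 * m) / B := by
    intro p hp p' hp'
    obtain ⟨hpp, hpl⟩ := hS p hp
    obtain ⟨hpp', hpl'⟩ := hS p' hp'
    have hpos : (0 : ℝ) ≤ 32 * 2 ^ (2 * m) / B := by positivity
    by_cases h : p' = p
    · rw [if_pos h]
      have h6 : ∑ n ∈ Ioc B B2, F ((p : ℤ) * p') n / n ≤ ∑ n ∈ Ioc B B2, (1 : ℝ) / n := by
        apply sum_le_sum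
        intro n _
        have := (abs_le.1 (abs_F_le ((p : ℤ) * p') n)).2
        gcongr
      have h7 := sum_inv_le_log B B2 (bb_pos k) hBB
      have h8 : Real.log B2 - Real.log B ≤ 2 ^ k := by
        rw [hB, hB2, log_bb, log_bb, pow_succ]
        have h9 : Real.log 2 ≤ 1 := by
          have := Real.log_le_sub_one_of_pos (x := 2) (by norm_num)
          linarith
        have h10 : (0 : ℝ) < 2 ^ k := by positivity
        nlinarith
      linarith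
    · rw [if_neg h, zero_add]
      have h6 := F_sum_div ((p : ℤ) * p') (not_isSquare_mul hpp hpp' (Ne.symm h)) B B2 (bb_pos k)
      have h7 : (((p : ℤ) * p').natAbs : ℝ) ≤ 4 * 2 ^ (2 * m) := by
        rw [Int.natAbs_mul, Int.natAbs_natCast, Int.natAbs_natCast]
        have : p * p' ≤ 2 ^ (m + 1) * 2 ^ (m + 1) := Nat.mul_le_mul hpl hpl'
        have h8 : (2 : ℕ) ^ (m + 1) * 2 ^ (m + 1) = 4 * 2 ^ (2 * m) := by
          rw [← pow_add, show m + 1 + (m + 1) = 2 * m + 2 by ring, pow_add]; ring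
        rw [h8] at this
        exact_mod_cast this
      calc _ ≤ _ := le_abs_self _
        _ ≤ 8 * (((p : ℤ) * p').natAbs : ℝ) / B := h6
        _ ≤ 8 * (4 * 2 ^ (2 * m)) / B := by gcongr
        _ = _ := by ring
  have h6 : ∑ n ∈ Ioc B B2, X n ^ 2 / n ≤ S.card * 2 ^ k + (S.card : ℝ) ^ 2 * (32 * 2 ^ (2 * m) / B) := by
    rw [h4]
    calc _ ≤ ∑ p ∈ S, ∑ p' ∈ S, ((if p' = p then (2 : ℝ) ^ k else 0) + 32 * 2 ^ (2 * m) / B) :=
          sum_le_sum fun p hp => sum_le_sum fun p' hp' => h5 p hp p' hp'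
      _ = ∑ p ∈ S, ((2 : ℝ) ^ k + S.card * (32 * 2 ^ (2 * m) / B)) := by
          apply sum_congr rfl
          intro p hp
          rw [sum_add_distrib, sum_ite_eq' S p, if_pos hp, sum_const, nsmul_eq_mul]
      _ = _ := by rw [sum_const, nsmul_eq_mul]; ring
  -- conclusion
  have hcard0 : (0 : ℝ) ≤ S.card := Nat.cast_nonneg _
  have h7 : (ε * S.card) ^ 2 ≤ (Bc ^ 2 * C0) *
      (S.card * 2 ^ k + (S.card : ℝ) ^ 2 * (32 * 2 ^ (2 * m) / B)) := by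
    have h8 : 0 ≤ ε * S.card := by positivity
    calc (ε * S.card) ^ 2 ≤ (σ * ∑ l ∈ PB k, c l * X l / l) ^ 2 := by gcongr
      _ = (∑ l ∈ PB k, c l * X l / l) ^ 2 := by rw [mul_pow, hσ1, one_mul]
      _ ≤ (∑ l ∈ PB k, c l ^ 2 / l) * ∑ l ∈ PB k, X l ^ 2 / l := h2
      _ ≤ (Bc ^ 2 * C0) * (S.card * 2 ^ k + (S.card : ℝ) ^ 2 * (32 * 2 ^ (2 * m) / B)) := by
        have : 0 ≤ ∑ l ∈ PB k, X l ^ 2 / (l : ℝ) := sum_nonneg fun _ _ => by positivity
        exact mul_le_mul hcb (h3.trans h6) this (by positivity)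
  have h8 : (Bc ^ 2 * C0) * (32 * 2 ^ (2 * m) / B) ≤ ε ^ 2 / 2 := by
    rw [← mul_div_assoc, div_le_iff₀ hB0]
    linarith
  rcases eq_or_lt_of_le hcard0 with h0 | h0
  · rw [← h0]; positivity
  · rw [le_div_iff₀ (by positivity)]
    have h9 : ε ^ 2 * S.card * S.card ≤ (2 * (Bc ^ 2 * C0) * 2 ^ k) * S.card := by nlinarith
    have := le_of_mul_le_mul_right h9 h0
    linarith

/-- W2: large sieve with bounded coefficients -/
theorem highC (c : ℕ → ℝ) (B : ℝ) (hc : ∀ l, |c l| ≤ B) :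
    ∃ C : ℝ, 0 < C ∧ ∀ (s : ℤ) (m k : ℕ) (ε : ℝ), (s = 1 ∨ s = -1) → 0 < ε → ε ≤ 1 →
    C * 2^(2*m) ≤ ε^2 * bb k →
    ((((Ioc (2^m) (2^(m+1))).filter (fun p : ℕ => p.Prime ∧ ε < |DkC c (s * p) k|)).card : ℕ) : ℝ) ≤
      C * 2^k / ε^2 := by
  classical
  obtain ⟨C, hC, hblk⟩ := blk
  have hB0 : 0 ≤ B := (abs_nonneg _).trans (hc 0)
  set Bc : ℝ := B + 1 with hBcd
  have hBc : 0 < Bc := by positivity
  have hc' : ∀ l, |c l| ≤ Bc := fun l => (hc l).trans (by linarith)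
  set C0 : ℝ := Real.log 2 + C with hC0
  have hlog2 : 0 < Real.log 2 := Real.log_pos one_lt_two
  have hC0' : 0 < C0 := by positivity
  have hb : ∀ k, ∑ l ∈ PB k, (1:ℝ) / l ≤ C0 := by
    intro k
    have h := (abs_le.1 (hblk k)).2
    have h1 : C / 2 ^ k ≤ C := div_le_self hC.le (one_le_pow₀ (by norm_num))
    linarith
  refine ⟨64 * (Bc ^ 2 * C0), by positivity, fun s m k ε hs hε _ hsize => ?_⟩
  set S := (Ioc (2^m) (2^(m+1))).filter (fun p : ℕ => p.Prime ∧ ε < |DkC c (s * p) k|) with hS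
  have hsplit : S ⊆ S.filter (fun p : ℕ => 0 ≤ DkC c (s * p) k) ∪
      S.filter (fun p : ℕ => DkC c (s * p) k ≤ 0) := by
    intro p hp
    rcases le_total 0 (DkC c (s * p) k) with h | h
    · exact mem_union_left _ (mem_filter.2 ⟨hp, h⟩)
    · exact mem_union_right _ (mem_filter.2 ⟨hp, h⟩)
  have hprime : ∀ p ∈ S, p.Prime ∧ p ≤ 2 ^ (m + 1) := by
    intro p hp
    rw [hS, mem_filter, mem_Ioc] at hp
    exact ⟨hp.2.1, hp.1.2⟩
  have h1 := highC_aux hBc hc' hC0' k (hb k) s m ε hs hε hsize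
    (S.filter (fun p : ℕ => 0 ≤ DkC c (s * p) k))
    (fun p hp => hprime p (mem_filter.1 hp).1) 1 (by
      intro p hp
      rw [mem_filter] at hp
      have h2 := hp.1
      rw [hS, mem_filter] at h2
      have := h2.2.2
      rw [abs_of_nonneg hp.2] at this
      linarith) (by norm_num)
  have h2 := highC_aux hBc hc' hC0' k (hb k) s m ε hs hε hsize
    (S.filter (fun p : ℕ => DkC c (s * p) k ≤ 0))
    (fun p hp => hprime p (mem_filter.1 hp).1) (-1) (by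
      intro p hp
      rw [mem_filter] at hp
      have h2 := hp.1
      rw [hS, mem_filter] at h2
      have := h2.2.2
      rw [abs_of_nonpos hp.2] at this
      linarith) (by norm_num)
  have h3 : (S.card : ℝ) ≤ (S.filter (fun p : ℕ => 0 ≤ DkC c (s * p) k)).card +
      (S.filter (fun p : ℕ => DkC c (s * p) k ≤ 0)).card := by
    have := (card_le_card hsplit).trans (card_union_le _ _)
    exact_mod_cast this
  calc (S.card : ℝ) ≤ 2 * (Bc ^ 2 * C0) * 2 ^ k / ε ^ 2 + 2 * (Bc ^ 2 * C0) * 2 ^ k / ε ^ 2 :=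
        h3.trans (add_le_add h1 h2)
    _ = 4 * (Bc ^ 2 * C0) * 2 ^ k / ε ^ 2 := by ring
    _ ≤ 64 * (Bc ^ 2 * C0) * 2 ^ k / ε ^ 2 := by gcongr; norm_num

end Pool.Agent.H66.Sgr
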