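import Pool.Agent.H66.Gol.Low
import Pool.Agent.H95.Sgr.Basic

/-! # Variance of the small primes with bounded coefficients (helper66, module W1) -/

namespace Pool.Agent.H66.Sgr

open Finset Pool.Agent.H95.Gol Pool.Agent.H95.Sgr Pool.Agent.H66.Gol NumberTheorySymbols

/-- W1: variance over `a` with bounded coefficients -/
theorem lowC (c : ℕ → ℝ) (B : ℝ) (hc : ∀ l, |c l| ≤ B) (s : ℤ) (_hs : s = 1 ∨ s = -1) (P k : ℕ) :
    ∑ a ∈ Ioc P (2 * P), (DkC c (s * a) k)^2 ≤ B^2 * (P / bb k + (bb (k+1) : ℝ)^2) := by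
  have hB0 : 0 ≤ B := (abs_nonneg _).trans (hc 0)
  have hodd : ∀ l ∈ PB k, l.Prime ∧ l ≠ 2 ∧ Odd l ∧ bb k < l ∧ l ≤ bb (k + 1) := by
    intro l hl
    rw [mem_PB] at hl
    have h2 := two_le_bb k
    have hl2 : l ≠ 2 := by omega
    exact ⟨hl.2, hl2, hl.2.odd_of_ne_two hl2, hl.1.1, hl.1.2⟩
  have hexp : ∀ a : ℕ, (DkC c (s * a) k)^2 =
      ∑ l ∈ PB k, ∑ l' ∈ PB k, (c l * c l') * F (s * a) (l * l') / (l * l' : ℝ) := by
    intro a
    unfold DkC
    rw [sq, Finset.sum_mul_sum]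
    apply Finset.sum_congr rfl; intro l _
    apply Finset.sum_congr rfl; intro l' _
    rw [F_mul]; ring
  rw [Finset.sum_congr rfl (fun a _ => hexp a), Finset.sum_comm]
  have hin : ∀ l ∈ PB k, ∑ a ∈ Ioc P (2 * P), ∑ l' ∈ PB k,
      (c l * c l') * F (s * a) (l * l') / (l * l' : ℝ) ≤
      B ^ 2 * (P * ((l : ℝ) ^ 2)⁻¹ + (PB k).card) := by
    intro l hl
    obtain ⟨hlp, hl2, hlo, _, _⟩ := hodd l hl
    have hl0 : (0 : ℝ) < l := by exact_mod_cast hlp.pos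
    rw [Finset.sum_comm]
    have hterm : ∀ l' ∈ PB k, ∑ a ∈ Ioc P (2 * P), (c l * c l') * F (s * a) (l * l') / (l * l' : ℝ) ≤
        B ^ 2 * ((if l' = l then P * ((l : ℝ) ^ 2)⁻¹ else 0) + 1) := by
      intro l' hl'
      obtain ⟨hlp', hl2', hlo', _, _⟩ := hodd l' hl'
      have hl0' : (0 : ℝ) < l' := by exact_mod_cast hlp'.pos
      have hcc : |c l * c l'| ≤ B ^ 2 := by
        rw [abs_mul, sq]
        exact mul_le_mul (hc l) (hc l') (abs_nonneg _) hB0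
      have e0 : ∑ a ∈ Ioc P (2 * P), (c l * c l') * F (s * a) (l * l') / (l * l' : ℝ) =
          (c l * c l') * ((∑ a ∈ Ioc P (2 * P), F (s * a) (l * l')) / (l * l' : ℝ)) := by
        rw [← Finset.sum_div, ← Finset.mul_sum, mul_div_assoc]
      have h0 : |(∑ a ∈ Ioc P (2 * P), F (s * a) (l * l')) / (l * l' : ℝ)| ≤
          (if l' = l then P * ((l : ℝ) ^ 2)⁻¹ else 0) + 1 := by
        rw [abs_div, abs_of_pos (by positivity : (0 : ℝ) < l * l')]
        by_cases h : l' = l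
        · rw [if_pos h, h]
          have h1 : |∑ a ∈ Ioc P (2 * P), F (s * a) (l * l)| ≤ P := by
            calc _ ≤ ∑ a ∈ Ioc P (2 * P), |F (s * a) (l * l)| := abs_sum_le_sum_abs _ _
              _ ≤ ∑ a ∈ Ioc P (2 * P), (1 : ℝ) := sum_le_sum fun a _ => abs_F_le _ _
              _ = P := by
                rw [sum_const, Nat.card_Ioc, nsmul_eq_mul, mul_one]
                congr 1; omega
          have h2 : |∑ a ∈ Ioc P (2 * P), F (s * a) (l * l)| / (l * l : ℝ) ≤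
              P * ((l : ℝ) ^ 2)⁻¹ := by
            rw [div_eq_mul_inv, sq (l : ℝ)]
            gcongr
          linarith
        · rw [if_neg h, zero_add]
          have h1 : ∀ a : ℕ, F (s * a) (l * l') =
              ((J(s | l * l') : ℤ) : ℝ) * ((J((a : ℤ) | l * l') : ℤ) : ℝ) := by
            intro a
            unfold F
            rw [if_pos (Nat.odd_mul.2 ⟨hlo, hlo'⟩), jacobiSym.mul_left]
            push_cast; rfl
          rw [Finset.sum_congr rfl (fun a _ => h1 a), ← Finset.mul_sum, div_le_one (by positivity)]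
          have h2 := sum_Ioc_jacobi hlp hlp' hl2 hl2' (Ne.symm h) P
          calc _ = |((J(s | l * l') : ℤ) : ℝ)| *
                |∑ a ∈ Ioc P (2 * P), ((J((a : ℤ) | l * l') : ℤ) : ℝ)| := abs_mul _ _
            _ ≤ 1 * (l * l') := by
                gcongr
                exact abs_jacobi_le _ _
            _ = _ := one_mul _
      rw [e0]
      calc _ ≤ |(c l * c l') * ((∑ a ∈ Ioc P (2 * P), F (s * a) (l * l')) / (l * l' : ℝ))| :=
            le_abs_self _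
        _ = |c l * c l'| * |(∑ a ∈ Ioc P (2 * P), F (s * a) (l * l')) / (l * l' : ℝ)| :=
            abs_mul _ _
        _ ≤ _ := mul_le_mul hcc h0 (abs_nonneg _) (by positivity)
    calc _ ≤ ∑ l' ∈ PB k, B ^ 2 * ((if l' = l then P * ((l : ℝ) ^ 2)⁻¹ else 0) + 1) :=
          sum_le_sum hterm
      _ = B ^ 2 * (P * ((l : ℝ) ^ 2)⁻¹ + (PB k).card) := by
        rw [← mul_sum, sum_add_distrib, sum_ite_eq' (PB k) l, if_pos hl]
        simp
  have hcard : ((PB k).card : ℝ) ≤ bb (k + 1) := by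
    have : (PB k).card ≤ bb (k + 1) := by
      unfold PB
      calc _ ≤ (Ioc (bb k) (bb (k + 1))).card := card_filter_le _ _
        _ = bb (k + 1) - bb k := Nat.card_Ioc _ _
        _ ≤ _ := Nat.sub_le _ _
    exact_mod_cast this
  have hsq : ∑ l ∈ PB k, ((l : ℝ) ^ 2)⁻¹ ≤ (bb k : ℝ)⁻¹ := by
    calc _ ≤ ∑ l ∈ Ioc (bb k) (bb (k + 1)), ((l : ℝ) ^ 2)⁻¹ :=
          sum_le_sum_of_subset_of_nonneg (filter_subset _ _) (fun _ _ _ => by positivity)
      _ ≤ (bb k : ℝ)⁻¹ - (bb (k + 1) : ℝ)⁻¹ :=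
          sum_Ioc_inv_sq_le_sub (bb_pos k).ne' (bb_mono (Nat.le_succ k))
      _ ≤ _ := by
        have : (0 : ℝ) ≤ (bb (k + 1) : ℝ)⁻¹ := by positivity
        linarith
  calc _ = ∑ l ∈ PB k, ∑ a ∈ Ioc P (2 * P), ∑ l' ∈ PB k,
        (c l * c l') * F (s * a) (l * l') / (l * l' : ℝ) := rfl
    _ ≤ ∑ l ∈ PB k, B ^ 2 * (P * ((l : ℝ) ^ 2)⁻¹ + (PB k).card) := sum_le_sum hin
    _ = B ^ 2 * (P * ∑ l ∈ PB k, ((l : ℝ) ^ 2)⁻¹ + (PB k).card * (PB k).card) := by
        rw [← mul_sum, sum_add_distrib, ← mul_sum, sum_const, nsmul_eq_mul]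
    _ ≤ B ^ 2 * (P * (bb k : ℝ)⁻¹ + bb (k + 1) * bb (k + 1)) := by gcongr
    _ = _ := by rw [← div_eq_mul_inv, sq (bb (k+1) : ℝ)]

end Pool.Agent.H66.Sgr
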